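import Pool.Agent.H95.INS.Targets2
import Pool.Agent.H97.NF.Pair

/-!
Module BK of the board ins_modules (MP_57ddd5_pr): the van den Berg-Kesten inequality for two
disjoint sets of sites with large total weight.
-/

set_option autoImplicit false

open MeasureTheory ProbabilityTheory
open scoped ENNReal

namespace Pool.Agent.H12.INS.BK

open Pool.Agent.H95.INS Pool.Agent.H99.NS
open Pool.Agent.H97.NF (PEnv eA eB mp_zip measurable_eA)

/-- A property of finitely many coordinates is measurable. -/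
theorem meas_fin {β : Type} [Countable β] [MeasurableSpace β] [MeasurableSingletonClass β]
    [Inhabited β] (S : Finset Site) (p : (Site → β) → Prop)
    (h : ∀ E E' : Site → β, (∀ x ∈ S, E x = E' x) → p E → p E') : MeasurableSet {E | p E} := by
  classical
  have hset : {E : Site → β | p E} = (S.restrict (π := fun _ => β)) ⁻¹'
      {e : S → β | p fun x => if hx : x ∈ S then e ⟨x, hx⟩ else default} := by
    ext E
    simp only [Set.mem_preimage, Set.mem_ofPred_eq]
    constructor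
    · intro hE
      refine h _ _ (fun x hx => ?_) hE
      simp [hx]
    · intro hE
      refine h _ _ (fun x hx => ?_) hE
      simp [hx]
  rw [hset]
  exact (Finset.measurable_restrict S) (Set.to_countable _).measurableSet

section

variable (F : Finset (Finset Site × ℝ)) (x : Site) (U : Finset Site)

/-- the interpolating event -/
def Dd (U : Finset Site) : Set PEnv :=
  {E | ∃ a ∈ F, ∃ b ∈ F, Disjoint a.1 b.1 ∧ a.2 ≤ ∑ y ∈ a.1, ((E y).1 : ℝ) ∧
    b.2 ≤ ∑ y ∈ b.1, (if y ∈ U then ((E y).2 : ℝ) else ((E y).1 : ℝ))}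

def Na (E : PEnv) : Prop := ∃ a ∈ F, ∃ b ∈ F, Disjoint a.1 b.1 ∧ x ∉ a.1 ∧ x ∉ b.1 ∧
  a.2 ≤ ∑ y ∈ a.1, ((E y).1 : ℝ) ∧
    b.2 ≤ ∑ y ∈ b.1, (if y ∈ U then ((E y).2 : ℝ) else ((E y).1 : ℝ))

def Va (E : PEnv) (k : ℕ) : Prop := ∃ a ∈ F, ∃ b ∈ F, Disjoint a.1 b.1 ∧ x ∈ a.1 ∧
  a.2 ≤ ∑ y ∈ a.1, (if y = x then (k : ℝ) else ((E y).1 : ℝ)) ∧
    b.2 ≤ ∑ y ∈ b.1, (if y ∈ U then ((E y).2 : ℝ) else ((E y).1 : ℝ))

def Vb (E : PEnv) (k : ℕ) : Prop := ∃ a ∈ F, ∃ b ∈ F, Disjoint a.1 b.1 ∧ x ∈ b.1 ∧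
  a.2 ≤ ∑ y ∈ a.1, ((E y).1 : ℝ) ∧
    b.2 ≤ ∑ y ∈ b.1, (if y = x then (k : ℝ) else if y ∈ U then ((E y).2 : ℝ) else ((E y).1 : ℝ))

variable {F x U}

theorem Va_mono {E : PEnv} {k k' : ℕ} (hk : k ≤ k') (h : Va F x U E k) : Va F x U E k' := by
  obtain ⟨a, ha, b, hb, hab, hx, h1, h2⟩ := h
  refine ⟨a, ha, b, hb, hab, hx, le_trans h1 (Finset.sum_le_sum fun y _ => ?_), h2⟩
  split_ifs
  · exact_mod_cast hk
  · exact le_rfl

theorem Vb_mono {E : PEnv} {k k' : ℕ} (hk : k ≤ k') (h : Vb F x U E k) : Vb F x U E k' := by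
  obtain ⟨a, ha, b, hb, hab, hx, h1, h2⟩ := h
  refine ⟨a, ha, b, hb, hab, hx, h1, le_trans h2 (Finset.sum_le_sum fun y _ => ?_)⟩
  split_ifs
  · exact_mod_cast hk
  · exact le_rfl
  · exact le_rfl

theorem Na_congr {E E' : PEnv} (h : ∀ y ∈ F.biUnion Prod.fst, y ≠ x → E y = E' y)
    (hE : Na F x U E) : Na F x U E' := by
  obtain ⟨a, ha, b, hb, hab, hxa, hxb, h1, h2⟩ := hE
  refine ⟨a, ha, b, hb, hab, hxa, hxb, ?_, ?_⟩
  · rw [Finset.sum_congr rfl fun y hy => ?_]
    · exact h1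
    · rw [h y (Finset.mem_biUnion.2 ⟨a, ha, hy⟩) (fun e => hxa (e ▸ hy))]
  · rw [Finset.sum_congr rfl fun y hy => ?_]
    · exact h2
    · rw [h y (Finset.mem_biUnion.2 ⟨b, hb, hy⟩) (fun e => hxb (e ▸ hy))]

theorem Va_congr {E E' : PEnv} (h : ∀ y ∈ F.biUnion Prod.fst, y ≠ x → E y = E' y) {k : ℕ}
    (hE : Va F x U E k) : Va F x U E' k := by
  obtain ⟨a, ha, b, hb, hab, hxa, h1, h2⟩ := hE
  have hxb : x ∉ b.1 := fun hx => (Finset.disjoint_left.1 hab) hxa hx
  refine ⟨a, ha, b, hb, hab, hxa, ?_, ?_⟩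
  · rw [Finset.sum_congr rfl fun y hy => ?_]
    · exact h1
    · by_cases e : y = x
      · rw [if_pos e, if_pos e]
      · rw [if_neg e, if_neg e, h y (Finset.mem_biUnion.2 ⟨a, ha, hy⟩) e]
  · rw [Finset.sum_congr rfl fun y hy => ?_]
    · exact h2
    · rw [h y (Finset.mem_biUnion.2 ⟨b, hb, hy⟩) (fun e => hxb (e ▸ hy))]

theorem Vb_congr {E E' : PEnv} (h : ∀ y ∈ F.biUnion Prod.fst, y ≠ x → E y = E' y) {k : ℕ}
    (hE : Vb F x U E k) : Vb F x U E' k := by
  obtain ⟨a, ha, b, hb, hab, hxb, h1, h2⟩ := hE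
  have hxa : x ∉ a.1 := fun hx => (Finset.disjoint_left.1 hab) hx hxb
  refine ⟨a, ha, b, hb, hab, hxb, ?_, ?_⟩
  · rw [Finset.sum_congr rfl fun y hy => ?_]
    · exact h1
    · rw [h y (Finset.mem_biUnion.2 ⟨a, ha, hy⟩) (fun e => hxa (e ▸ hy))]
  · rw [Finset.sum_congr rfl fun y hy => ?_]
    · exact h2
    · by_cases e : y = x
      · rw [if_pos e, if_pos e]
      · rw [if_neg e, if_neg e, h y (Finset.mem_biUnion.2 ⟨b, hb, hy⟩) e]

theorem mem_Dd (hx : x ∉ U) (E : PEnv) :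
    E ∈ Dd F U ↔ Na F x U E ∨ Va F x U E (E x).1 ∨ Vb F x U E (E x).1 := by
  constructor
  · rintro ⟨a, ha, b, hb, hab, h1, h2⟩
    by_cases hxa : x ∈ a.1
    · right; left
      refine ⟨a, ha, b, hb, hab, hxa, ?_, h2⟩
      rw [Finset.sum_congr rfl fun y hy => ?_]
      · exact h1
      · by_cases e : y = x
        · rw [if_pos e, e]
        · rw [if_neg e]
    by_cases hxb : x ∈ b.1
    · right; right
      refine ⟨a, ha, b, hb, hab, hxb, h1, ?_⟩
      rw [Finset.sum_congr rfl fun y hy => ?_]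
      · exact h2
      · by_cases e : y = x
        · rw [if_pos e, e, if_neg hx]
        · rw [if_neg e]
    · left
      exact ⟨a, ha, b, hb, hab, hxa, hxb, h1, h2⟩
  · rintro (⟨a, ha, b, hb, hab, hxa, hxb, h1, h2⟩ | ⟨a, ha, b, hb, hab, hxa, h1, h2⟩ |
      ⟨a, ha, b, hb, hab, hxb, h1, h2⟩)
    · exact ⟨a, ha, b, hb, hab, h1, h2⟩
    · refine ⟨a, ha, b, hb, hab, ?_, h2⟩
      rw [Finset.sum_congr rfl fun y hy => ?_]
      · exact h1
      · by_cases e : y = x
        · rw [if_pos e, e]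
        · rw [if_neg e]
    · refine ⟨a, ha, b, hb, hab, h1, ?_⟩
      rw [Finset.sum_congr rfl fun y hy => ?_]
      · exact h2
      · by_cases e : y = x
        · rw [if_pos e, e, if_neg hx]
        · rw [if_neg e]

theorem mem_Dd' (hx : x ∉ U) (E : PEnv) :
    E ∈ Dd F (insert x U) ↔ Na F x U E ∨ Va F x U E (E x).1 ∨ Vb F x U E (E x).2 := by
  have key : ∀ y, y ≠ x → (y ∈ insert x U ↔ y ∈ U) := fun y hy => by
    rw [Finset.mem_insert]
    exact or_iff_right hy
  constructor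
  · rintro ⟨a, ha, b, hb, hab, h1, h2⟩
    by_cases hxa : x ∈ a.1
    · right; left
      have hxb : x ∉ b.1 := fun hx => (Finset.disjoint_left.1 hab) hxa hx
      refine ⟨a, ha, b, hb, hab, hxa, ?_, ?_⟩
      · rw [Finset.sum_congr rfl fun y hy => ?_]
        · exact h1
        · by_cases e : y = x
          · rw [if_pos e, e]
          · rw [if_neg e]
      · rw [Finset.sum_congr rfl fun y hy => ?_]
        · exact h2
        · simp only [key y (fun e => hxb (e ▸ hy))]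
    by_cases hxb : x ∈ b.1
    · right; right
      refine ⟨a, ha, b, hb, hab, hxb, h1, ?_⟩
      rw [Finset.sum_congr rfl fun y hy => ?_]
      · exact h2
      · by_cases e : y = x
        · rw [if_pos e, e, if_pos (Finset.mem_insert_self _ _)]
        · rw [if_neg e]
          simp only [key y e]
    · left
      refine ⟨a, ha, b, hb, hab, hxa, hxb, h1, ?_⟩
      rw [Finset.sum_congr rfl fun y hy => ?_]
      · exact h2
      · simp only [key y (fun e => hxb (e ▸ hy))]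
  · rintro (⟨a, ha, b, hb, hab, hxa, hxb, h1, h2⟩ | ⟨a, ha, b, hb, hab, hxa, h1, h2⟩ |
      ⟨a, ha, b, hb, hab, hxb, h1, h2⟩)
    · refine ⟨a, ha, b, hb, hab, h1, ?_⟩
      rw [Finset.sum_congr rfl fun y hy => ?_]
      · exact h2
      · simp only [key y (fun e => hxb (e ▸ hy))]
    · have hxb : x ∉ b.1 := fun hx => (Finset.disjoint_left.1 hab) hxa hx
      refine ⟨a, ha, b, hb, hab, ?_, ?_⟩
      · rw [Finset.sum_congr rfl fun y hy => ?_]
        · exact h1
        · by_cases e : y = x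
          · rw [if_pos e, e]
          · rw [if_neg e]
      · rw [Finset.sum_congr rfl fun y hy => ?_]
        · exact h2
        · simp only [key y (fun e => hxb (e ▸ hy))]
    · refine ⟨a, ha, b, hb, hab, h1, ?_⟩
      rw [Finset.sum_congr rfl fun y hy => ?_]
      · exact h2
      · by_cases e : y = x
        · rw [if_pos e, e, if_pos (Finset.mem_insert_self _ _)]
        · rw [if_neg e]
          simp only [key y e]

end

/-- the law of two independent environments -/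
noncomputable def QQ (q : ℝ) : Measure PEnv :=
  Measure.infinitePi (fun _ => (geo q).prod (geo q))

/-- exchange of the two environments at the site `x` -/
noncomputable def sw (x : Site) (E : PEnv) : PEnv := fun y => (if y = x then Prod.swap else id) (E y)

theorem sw_self (x : Site) (E : PEnv) : sw x E x = (E x).swap := by
  unfold sw
  rw [if_pos rfl]

theorem sw_ne {x y : Site} (h : y ≠ x) (E : PEnv) : sw x E y = E y := by
  unfold sw
  rw [if_neg h]
  rfl

theorem mp_sw (q : ℝ) (x : Site) : MeasurePreserving (sw x) (QQ q) (QQ q) := by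
  have hf : ∀ y : Site, Measurable ((if y = x then Prod.swap else id : ℕ × ℕ → ℕ × ℕ)) := by
    intro y
    split_ifs
    · exact measurable_swap
    · exact measurable_id
  have h := Measure.infinitePi_map_pi (fun _ : Site => (geo q).prod (geo q))
    (f := fun y => (if y = x then Prod.swap else id : ℕ × ℕ → ℕ × ℕ)) hf
  have e : ∀ y : Site, ((geo q).prod (geo q)).map
      ((if y = x then Prod.swap else id : ℕ × ℕ → ℕ × ℕ)) = (geo q).prod (geo q) := by
    intro y
    split_ifs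
    · exact Measure.prod_swap
    · exact Measure.map_id
  simp only [e] at h
  refine ⟨?_, h⟩
  unfold sw
  refine measurable_pi_lambda _ fun y => ?_
  exact (hf y).comp (measurable_pi_apply y)

theorem meas_Dd (F : Finset (Finset Site × ℝ)) (U : Finset Site) : MeasurableSet (Dd F U) := by
  refine meas_fin (F.biUnion Prod.fst) _ fun E E' h hE => ?_
  obtain ⟨a, ha, b, hb, hab, h1, h2⟩ := hE
  refine ⟨a, ha, b, hb, hab, ?_, ?_⟩
  · rw [Finset.sum_congr rfl fun y hy => ?_]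
    · exact h1
    · rw [h y (Finset.mem_biUnion.2 ⟨a, ha, hy⟩)]
  · rw [Finset.sum_congr rfl fun y hy => ?_]
    · exact h2
    · rw [h y (Finset.mem_biUnion.2 ⟨b, hb, hy⟩)]

theorem step (q : ℝ) (F : Finset (Finset Site × ℝ)) (x : Site) (U : Finset Site) (hx : x ∉ U) :
    QQ q (Dd F U) ≤ QQ q (Dd F (insert x U)) := by
  obtain ⟨C, hC⟩ : ∃ C : Set PEnv, C = {E | ∀ k, Va F x U E k → Vb F x U E k} := ⟨_, rfl⟩
  have hCm : MeasurableSet C := by
    rw [hC]
    refine meas_fin (F.biUnion Prod.fst) _ fun E E' h hE k hk => ?_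
    exact Vb_congr (fun y hy _ => h y hy) (hE k (Va_congr (fun y hy _ => (h y hy).symm) hk))
  have h1 : Dd F U ∩ C ⊆ sw x ⁻¹' (Dd F (insert x U) ∩ C) := by
    rintro E ⟨hE, hEC⟩
    rw [hC] at hEC
    have hne : ∀ y ∈ F.biUnion Prod.fst, y ≠ x → E y = sw x E y := fun y _ h => (sw_ne h E).symm
    have hne' : ∀ y ∈ F.biUnion Prod.fst, y ≠ x → sw x E y = E y := fun y _ h => sw_ne h E
    constructor
    · rw [mem_Dd' hx]
      rw [mem_Dd hx] at hE
      rcases hE with h | h | h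
      · exact Or.inl (Na_congr hne h)
      · right; right
        rw [sw_self]
        exact Vb_congr hne (hEC _ h)
      · right; right
        rw [sw_self]
        exact Vb_congr hne h
    · rw [hC]
      intro k hk
      exact Vb_congr hne (hEC k (Va_congr hne' hk))
  have h2 : Dd F U \ C ⊆ Dd F (insert x U) \ C := by
    rintro E ⟨hE, hEC⟩
    refine ⟨?_, hEC⟩
    rw [hC] at hEC
    simp only [Set.mem_ofPred_eq, not_forall] at hEC
    obtain ⟨k₀, hk1, hk2⟩ := hEC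
    rw [mem_Dd' hx]
    rw [mem_Dd hx] at hE
    rcases hE with h | h | h
    · exact Or.inl h
    · exact Or.inr (Or.inl h)
    · right; left
      rcases le_total (E x).1 k₀ with hle | hle
      · exact absurd (Vb_mono hle h) hk2
      · exact Va_mono hle hk1
  calc QQ q (Dd F U) = QQ q (Dd F U ∩ C) + QQ q (Dd F U \ C) := (measure_inter_add_diff _ hCm).symm
    _ ≤ QQ q (sw x ⁻¹' (Dd F (insert x U) ∩ C)) + QQ q (Dd F (insert x U) \ C) :=
        add_le_add (measure_mono h1) (measure_mono h2)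
    _ = QQ q (Dd F (insert x U) ∩ C) + QQ q (Dd F (insert x U) \ C) := by
        rw [(mp_sw q x).measure_preimage ((meas_Dd F _).inter hCm).nullMeasurableSet]
    _ = QQ q (Dd F (insert x U)) := measure_inter_add_diff _ hCm

theorem pf_BK : T_BK := by
  intro q F hq0 hq1
  classical
  obtain ⟨G, hG⟩ : ∃ G : Set Env, G = {ω | ∃ a ∈ F, a.2 ≤ ∑ x ∈ a.1, (ω x : ℝ)} := ⟨_, rfl⟩
  have hzip := mp_zip (fun _ : Site => geo q) (fun _ : Site => geo q)
  have hLm : MeasurableSet {ω : Env | ∃ a ∈ F, ∃ b ∈ F, Disjoint a.1 b.1 ∧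
      a.2 ≤ ∑ x ∈ a.1, (ω x : ℝ) ∧ b.2 ≤ ∑ x ∈ b.1, (ω x : ℝ)} := by
    refine meas_fin (F.biUnion Prod.fst) _ fun E E' h hE => ?_
    obtain ⟨a, ha, b, hb, hab, h1, h2⟩ := hE
    refine ⟨a, ha, b, hb, hab, ?_, ?_⟩
    · rw [Finset.sum_congr rfl fun y hy => ?_]
      · exact h1
      · rw [h y (Finset.mem_biUnion.2 ⟨a, ha, hy⟩)]
    · rw [Finset.sum_congr rfl fun y hy => ?_]
      · exact h2
      · rw [h y (Finset.mem_biUnion.2 ⟨b, hb, hy⟩)]
  have hGm : MeasurableSet G := by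
    rw [hG]
    refine meas_fin (F.biUnion Prod.fst) _ fun E E' h hE => ?_
    obtain ⟨a, ha, h1⟩ := hE
    refine ⟨a, ha, ?_⟩
    rw [Finset.sum_congr rfl fun y hy => ?_]
    · exact h1
    · rw [h y (Finset.mem_biUnion.2 ⟨a, ha, hy⟩)]
  -- the first environment
  have hleft : PE q {ω : Env | ∃ a ∈ F, ∃ b ∈ F, Disjoint a.1 b.1 ∧
      a.2 ≤ ∑ x ∈ a.1, (ω x : ℝ) ∧ b.2 ≤ ∑ x ∈ b.1, (ω x : ℝ)} = QQ q (Dd F ∅) := by
    have h1 := hzip.measure_preimage (meas_Dd F ∅).nullMeasurableSet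
    have h2 : (fun (p : (Site → ℕ) × (Site → ℕ)) (i : Site) => (p.1 i, p.2 i)) ⁻¹' (Dd F ∅) =
        {ω : Env | ∃ a ∈ F, ∃ b ∈ F, Disjoint a.1 b.1 ∧
          a.2 ≤ ∑ x ∈ a.1, (ω x : ℝ) ∧ b.2 ≤ ∑ x ∈ b.1, (ω x : ℝ)} ×ˢ Set.univ := by
      ext p
      simp [Dd]
    rw [h2, Measure.prod_prod, measure_univ, mul_one] at h1
    exact h1
  have hmid : ∀ U : Finset Site, QQ q (Dd F ∅) ≤ QQ q (Dd F U) := by
    intro U
    induction U using Finset.induction_on with
    | empty => exact le_rfl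
    | insert x U hx ih => exact le_trans ih (step q F x U hx)
  have hright : QQ q (Dd F (F.biUnion Prod.fst)) ≤ PE q G ^ 2 := by
    have h1 := hzip.measure_preimage (meas_Dd F (F.biUnion Prod.fst)).nullMeasurableSet
    have h2 : (fun (p : (Site → ℕ) × (Site → ℕ)) (i : Site) => (p.1 i, p.2 i)) ⁻¹'
        (Dd F (F.biUnion Prod.fst)) ⊆ G ×ˢ G := by
      rintro p ⟨a, ha, b, hb, hab, h3, h4⟩
      rw [hG]
      refine ⟨⟨a, ha, h3⟩, ⟨b, hb, ?_⟩⟩
      rw [Finset.sum_congr rfl fun y hy => if_pos (Finset.mem_biUnion.2 ⟨b, hb, hy⟩)] at h4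
      exact h4
    calc QQ q (Dd F (F.biUnion Prod.fst)) = _ := h1.symm
      _ ≤ ((PE q).prod (PE q)) (G ×ˢ G) := measure_mono h2
      _ = PE q G ^ 2 := by rw [Measure.prod_prod, sq]
  rw [hleft, ← hG]
  exact le_trans (hmid _) hright

end Pool.Agent.H12.INS.BK
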