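import Pool.Agent.H95.INS.Targets2

/-!
Module CHO of the board ins_modules (MP_57ddd5_pr): choice of the constants.
-/

set_option autoImplicit false

open Filter Topology

namespace Pool.Agent.H12.INS

open Pool.Agent.H95.INS Pool.Agent.H99.NS

theorem ev (k : ℕ) (δ M ε : ℝ) (hδ : 0 < δ) (hε : 0 < ε) :
    ∀ᶠ z : ℝ in atTop, M * z ^ k * Real.exp (-(δ * z)) ≤ ε := by
  have h1 := (Real.tendsto_pow_mul_exp_neg_atTop_nhds_zero k).comp
    (tendsto_id.const_mul_atTop hδ)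
  have h2 := h1.const_mul (M / δ ^ k)
  rw [mul_zero] at h2
  filter_upwards [h2.eventually_le_const hε] with z hz
  refine le_trans (le_of_eq ?_) hz
  simp only [Function.comp, id, mul_pow]
  field_simp

theorem pf_CHO : T_CHO := by
  intro q cs C₂ ε' K B C c hq0 hq1 hcs hC₂ hε hK hB hC hc H₀
  have hs : 0 < sg q := by
    unfold sg
    exact div_pos (Real.sqrt_pos.mpr hq0) (by linarith)
  generalize sg q = s at hs
  obtain ⟨b, hb⟩ : ∃ b : ℝ, b = (2 : ℝ) ^ ((3 : ℝ) / 2) := ⟨_, rfl⟩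
  have hb0 : 0 < b := by rw [hb]; positivity
  obtain ⟨C3, hC3⟩ : ∃ C3 : ℝ, C3 = max (max 1 C₂) ((2 * (cs + cs / 10000) * b + 1) / c) := ⟨_, rfl⟩
  have h31 : 1 ≤ C3 := by rw [hC3]; exact le_trans (le_max_left _ _) (le_max_left _ _)
  have h32 : C₂ ≤ C3 := by rw [hC3]; exact le_trans (le_max_right _ _) (le_max_left _ _)
  have h33 : 2 * (cs + cs / 10000) * b + 1 ≤ c * C3 := by
    have : (2 * (cs + cs / 10000) * b + 1) / c ≤ C3 := by rw [hC3]; exact le_max_right _ _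
    rw [div_le_iff₀ hc] at this
    linarith
  obtain ⟨a, ha⟩ : ∃ a : ℝ, a = √(C3 / s) + B / 2 + 20 := ⟨_, rfl⟩
  have hsq : 0 ≤ √(C3 / s) := Real.sqrt_nonneg _
  have ha0 : 20 ≤ a := by rw [ha]; linarith
  obtain ⟨C4, hC4⟩ : ∃ C4 : ℝ, C4 = 2 * a + 2 := ⟨_, rfl⟩
  have hC40 : 0 < C4 := by rw [hC4]; linarith
  -- powers
  have hr1 : (10014 : ℝ) / 10000 ≤ (1001 / 1000 : ℝ) ^ ((3 : ℝ) / 2) := by
    have h1 : ((1001 / 1000 : ℝ) ^ ((3 : ℝ) / 2)) ^ 2 = (1001 / 1000) ^ 3 := by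
      rw [← Real.rpow_natCast, ← Real.rpow_mul (by norm_num), ← Real.rpow_natCast]
      norm_num
    have h2 : (0 : ℝ) ≤ (1001 / 1000 : ℝ) ^ ((3 : ℝ) / 2) := by positivity
    by_contra hcon
    push Not at hcon
    have h3 : ((1001 / 1000 : ℝ) ^ ((3 : ℝ) / 2)) ^ 2 < (10014 / 10000) ^ 2 := by
      apply pow_lt_pow_left₀ hcon h2 (by norm_num)
    rw [h1] at h3
    norm_num at h3
  have hr2 : (96 : ℝ) / 100 ≤ (974 / 1000 : ℝ) ^ ((3 : ℝ) / 2) := by
    have h1 : ((974 / 1000 : ℝ) ^ ((3 : ℝ) / 2)) ^ 2 = (974 / 1000) ^ 3 := by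
      rw [← Real.rpow_natCast, ← Real.rpow_mul (by norm_num), ← Real.rpow_natCast]
      norm_num
    have h2 : (0 : ℝ) ≤ (974 / 1000 : ℝ) ^ ((3 : ℝ) / 2) := by positivity
    by_contra hcon
    push Not at hcon
    have h3 : ((974 / 1000 : ℝ) ^ ((3 : ℝ) / 2)) ^ 2 < (96 / 100) ^ 2 := by
      apply pow_lt_pow_left₀ hcon h2 (by norm_num)
    rw [h1] at h3
    norm_num at h3
  -- the asymptotic conditions
  have t6 : Tendsto (fun x : ℝ => x ^ 6) atTop atTop := tendsto_pow_atTop (by norm_num)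
  have t4 : Tendsto (fun x : ℝ => x ^ 4) atTop atTop := tendsto_pow_atTop (by norm_num)
  have E1 := t6.eventually (ev 1 (cs * b / 1000) (10000 * 256 * C4 ^ 2) (ε' / 2) (by positivity)
    (by positivity))
  have E2 := t6.eventually (ev 2 (9 / 10 * (cs * b)) (10000 ^ 2 * 16 ^ 4 * C4 ^ 4) (ε' / 2)
    (by positivity) (by positivity))
  have E3 := t4.eventually (ev 2 c (C * C4 ^ 2) ε' hc hε)
  have E4 := t6.eventually (ev 1 1 (C * C4) (ε' / 4) one_pos (by positivity))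
  obtain ⟨x, hx1, hx2, hx3, hx4, hx5, e1, e2, e3, e4⟩ := ((eventually_ge_atTop (1 : ℝ)).and
    ((t4.eventually_ge_atTop H₀).and ((eventually_ge_atTop (256 * C4)).and
    ((t4.eventually_ge_atTop (1000 * (70 * s + 3 * K * (1 + B) + s * B ^ 2))).and
    ((eventually_ge_atTop (1000 * (K * (1 + 16 * C4)))).and
    (E1.and (E2.and (E3.and E4)))))))).exists
  have hx0 : 0 ≤ x := by linarith
  have hx0' : 0 < x := by linarith
  have hx13 : 1 ≤ x ^ 3 := one_le_pow₀ hx1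
  have hx14 : 1 ≤ x ^ 4 := one_le_pow₀ hx1
  have hx16 : 1 ≤ x ^ 6 := one_le_pow₀ hx1
  have hA1 : a * x ^ 3 ≤ (⌈a * x ^ 3⌉ : ℤ) := Int.le_ceil _
  have hA2 : ((⌈a * x ^ 3⌉ : ℤ) : ℝ) < a * x ^ 3 + 1 := Int.ceil_lt_add_one _
  obtain ⟨A, hA⟩ : ∃ A : ℤ, A = 2 * ⌈a * x ^ 3⌉ := ⟨_, rfl⟩
  have hAr : (A : ℝ) = 2 * ((⌈a * x ^ 3⌉ : ℤ) : ℝ) := by rw [hA]; push_cast; ring
  have hAlow : 2 * (a * x ^ 3) ≤ A := by rw [hAr]; linarith
  have hax : a ≤ a * x ^ 3 := le_mul_of_one_le_right (by linarith) hx13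
  have hA0 : (0 : ℝ) ≤ A := by linarith
  have hAup : (A : ℝ) ≤ C4 * x ^ 3 := by
    have h1 : C4 * x ^ 3 = 2 * (a * x ^ 3) + 2 * x ^ 3 := by rw [hC4]; ring
    rw [hAr, h1]
    linarith
  have hA2up : (A : ℝ) ^ 2 ≤ C4 ^ 2 * x ^ 6 := by
    have := pow_le_pow_left₀ hA0 hAup 2
    rw [mul_pow, ← pow_mul] at this
    exact this
  have hA4up : (A : ℝ) ^ 4 ≤ C4 ^ 4 * (x ^ 6) ^ 2 := by
    have := pow_le_pow_left₀ hA0 hAup 4
    rw [mul_pow, ← pow_mul] at this
    rw [← pow_mul]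
    exact this
  have hp : (x ^ 4) ^ ((3 : ℝ) / 2) = x ^ 6 := by
    rw [← Real.rpow_natCast, ← Real.rpow_mul hx0, ← Real.rpow_natCast]
    norm_num
  have hp1 : (2 * x ^ 4) ^ ((3 : ℝ) / 2) = b * x ^ 6 := by
    rw [Real.mul_rpow (by norm_num) (by positivity), hp, hb]
  have hp2 : ∀ y : ℝ, 0 ≤ y → (2 * y * x ^ 4) ^ ((3 : ℝ) / 2) = b * y ^ ((3 : ℝ) / 2) * x ^ 6 := by
    intro y hy
    rw [Real.mul_rpow (by positivity) (by positivity), hp, Real.mul_rpow (by norm_num) hy, hb]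
  refine ⟨A, x ^ 4, C3 * x ^ 6, hx2, hx14, ?_, ?_, ?_, ?_, ?_, ?_, ?_, ?_, ?_, ?_⟩
  · have : (40 : ℝ) ≤ A := by linarith
    exact_mod_cast this
  · rw [hA]; exact even_two_mul _
  · have : B + 40 ≤ 2 * a := by rw [ha]; linarith
    linarith
  · calc 256 * (A : ℝ) ≤ 256 * (C4 * x ^ 3) := by linarith
      _ = (256 * C4) * x ^ 3 := by ring
      _ ≤ x * x ^ 3 := mul_le_mul_of_nonneg_right hx3 (by positivity)
      _ = x ^ 4 := by ring
  · linarith
  · have h1 : K * (1 + 16 * (A : ℝ)) ≤ K * (1 + 16 * C4) * x ^ 3 := by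
      have : 1 + 16 * (A : ℝ) ≤ (1 + 16 * C4) * x ^ 3 := by
        have h1 : (1 + 16 * C4) * x ^ 3 = x ^ 3 + 16 * (C4 * x ^ 3) := by ring
        rw [h1]
        linarith
      calc K * (1 + 16 * (A : ℝ)) ≤ K * ((1 + 16 * C4) * x ^ 3) :=
            mul_le_mul_of_nonneg_left this hK
        _ = _ := by ring
    have h2 : 1000 * (K * (1 + 16 * C4)) * x ^ 3 ≤ x * x ^ 3 :=
      mul_le_mul_of_nonneg_right hx5 (by positivity)
    have h3 : x * x ^ 3 = x ^ 4 := by ring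
    linarith
  · have h1 : x ^ 4 ≤ x ^ 6 := pow_le_pow_right₀ hx1 (by norm_num)
    exact le_trans h1 (le_mul_of_one_le_left (by positivity) h31)
  · have h1 : √(C3 / s) ^ 2 = C3 / s := Real.sq_sqrt (by positivity)
    have h2 : √(C3 / s) ≤ a := by rw [ha]; linarith
    have h3 : (2 * (√(C3 / s) * x ^ 3)) ^ 2 ≤ (A : ℝ) ^ 2 := by
      apply pow_le_pow_left₀ (by positivity)
      refine le_trans ?_ hAlow
      have : √(C3 / s) * x ^ 3 ≤ a * x ^ 3 := mul_le_mul_of_nonneg_right h2 (by positivity)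
      linarith
    have h4 : (2 * (√(C3 / s) * x ^ 3)) ^ 2 = 4 * (C3 / s) * x ^ 6 := by
      rw [mul_pow, mul_pow, h1, ← pow_mul]
      ring
    rw [h4] at h3
    have h5 := mul_le_mul_of_nonneg_left h3 hs.le
    refine le_trans (le_of_eq ?_) h5
    field_simp
  · rw [hp]
    exact mul_le_mul_of_nonneg_right h32 (by positivity)
  · intro p U
    have hcbz : 0 < cs * b * x ^ 6 := by positivity
    have hpe : p = Real.exp (-((cs + cs / 10000) * (b * x ^ 6))) / 2 := by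
      show Real.exp _ / 2 = _
      rw [hp1]
    have hU : ∀ y : ℝ, 0 ≤ y → U y = 10000 * (16 * (A : ℝ)) ^ 2 *
        Real.exp (-((cs - cs / 10000) * (b * y ^ ((3 : ℝ) / 2) * x ^ 6))) := by
      intro y hy
      show 10000 * (16 * (A : ℝ)) ^ 2 * Real.exp _ = _
      rw [hp2 y hy]
    generalize hP : Real.exp (-((cs + cs / 10000) * (b * x ^ 6))) = P at hpe
    have hP0 : 0 < P := by rw [← hP]; exact Real.exp_pos _
    refine ⟨?_, ?_, ?_, ?_⟩
    · rw [hU _ (by norm_num), hpe]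
      generalize (1001 / 1000 : ℝ) ^ ((3 : ℝ) / 2) = r1 at hr1
      have h1 : Real.exp (-((cs - cs / 10000) * (b * r1 * x ^ 6))) ≤
          P * Real.exp (-(cs * b / 1000 * x ^ 6)) := by
        rw [← hP, ← Real.exp_add]
        apply Real.exp_le_exp.mpr
        have h2 : (cs - cs / 10000) * (b * r1 * x ^ 6) = 9999 / 10000 * r1 * (cs * b * x ^ 6) := by
          ring
        have h3 : 9999 / 10000 * (10014 / 10000) * (cs * b * x ^ 6) ≤
            9999 / 10000 * r1 * (cs * b * x ^ 6) := by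
          apply mul_le_mul_of_nonneg_right _ hcbz.le
          linarith
        have h4 : (cs + cs / 10000) * (b * x ^ 6) = 10001 / 10000 * (cs * b * x ^ 6) := by ring
        have h5 : cs * b / 1000 * x ^ 6 = 1 / 1000 * (cs * b * x ^ 6) := by ring
        rw [h2, h4, h5]
        generalize cs * b * x ^ 6 = W at hcbz h3
        linarith only [hcbz, h3]
      calc 10000 * (16 * (A : ℝ)) ^ 2 * Real.exp (-((cs - cs / 10000) * (b * r1 * x ^ 6)))
          ≤ 10000 * (16 * (A : ℝ)) ^ 2 * (P * Real.exp (-(cs * b / 1000 * x ^ 6))) :=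
            mul_le_mul_of_nonneg_left h1 (by positivity)
        _ = 10000 * 256 * (A : ℝ) ^ 2 * Real.exp (-(cs * b / 1000 * x ^ 6)) * P := by ring
        _ ≤ 10000 * 256 * (C4 ^ 2 * x ^ 6) * Real.exp (-(cs * b / 1000 * x ^ 6)) * P := by
            gcongr
        _ = 10000 * 256 * C4 ^ 2 * (x ^ 6) ^ 1 * Real.exp (-(cs * b / 1000 * x ^ 6)) * P := by ring
        _ ≤ ε' / 2 * P := mul_le_mul_of_nonneg_right e1 hP0.le
        _ = _ := by ring
    · rw [hU _ (by norm_num), hpe]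
      generalize (974 / 1000 : ℝ) ^ ((3 : ℝ) / 2) = r2 at hr2
      have h1 : Real.exp (-((cs - cs / 10000) * (b * r2 * x ^ 6))) ^ 2 ≤
          P * Real.exp (-(9 / 10 * (cs * b) * x ^ 6)) := by
        rw [← hP, ← Real.exp_add, sq, ← Real.exp_add]
        apply Real.exp_le_exp.mpr
        have h2 : (cs - cs / 10000) * (b * r2 * x ^ 6) = 9999 / 10000 * r2 * (cs * b * x ^ 6) := by
          ring
        have h3 : 9999 / 10000 * (96 / 100) * (cs * b * x ^ 6) ≤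
            9999 / 10000 * r2 * (cs * b * x ^ 6) := by
          apply mul_le_mul_of_nonneg_right _ hcbz.le
          linarith
        have h4 : (cs + cs / 10000) * (b * x ^ 6) = 10001 / 10000 * (cs * b * x ^ 6) := by ring
        have h5 : 9 / 10 * (cs * b) * x ^ 6 = 9 / 10 * (cs * b * x ^ 6) := by ring
        rw [h2, h4, h5]
        generalize cs * b * x ^ 6 = W at hcbz h3
        linarith only [hcbz, h3]
      calc (10000 * (16 * (A : ℝ)) ^ 2 * Real.exp (-((cs - cs / 10000) * (b * r2 * x ^ 6)))) ^ 2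
          = (10000 * (16 * (A : ℝ)) ^ 2) ^ 2 *
            Real.exp (-((cs - cs / 10000) * (b * r2 * x ^ 6))) ^ 2 := by ring
        _ ≤ (10000 * (16 * (A : ℝ)) ^ 2) ^ 2 * (P * Real.exp (-(9 / 10 * (cs * b) * x ^ 6))) :=
            mul_le_mul_of_nonneg_left h1 (by positivity)
        _ = 10000 ^ 2 * 16 ^ 4 * (A : ℝ) ^ 4 * Real.exp (-(9 / 10 * (cs * b) * x ^ 6)) * P := by
            ring
        _ ≤ 10000 ^ 2 * 16 ^ 4 * (C4 ^ 4 * (x ^ 6) ^ 2) *
            Real.exp (-(9 / 10 * (cs * b) * x ^ 6)) * P := by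
            gcongr
        _ = 10000 ^ 2 * 16 ^ 4 * C4 ^ 4 * (x ^ 6) ^ 2 *
            Real.exp (-(9 / 10 * (cs * b) * x ^ 6)) * P := by ring
        _ ≤ ε' / 2 * P := mul_le_mul_of_nonneg_right e2 hP0.le
        _ = _ := by ring
    · have h1 : x ^ 6 ≤ (x ^ 4) ^ 2 := by
        rw [← pow_mul]
        exact pow_le_pow_right₀ hx1 (by norm_num)
      calc C * (A : ℝ) ^ 2 * Real.exp (-(c * x ^ 4))
          ≤ C * (C4 ^ 2 * (x ^ 4) ^ 2) * Real.exp (-(c * x ^ 4)) := by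
            have : (A : ℝ) ^ 2 ≤ C4 ^ 2 * (x ^ 4) ^ 2 :=
              le_trans hA2up (mul_le_mul_of_nonneg_left h1 (by positivity))
            gcongr
        _ = C * C4 ^ 2 * (x ^ 4) ^ 2 * Real.exp (-(c * x ^ 4)) := by ring
        _ ≤ ε' := e3
    · rw [hpe]
      have h1 : Real.exp (-(c * (C3 * x ^ 6))) ≤ P ^ 2 * Real.exp (-(1 * x ^ 6)) := by
        rw [← hP, sq, ← Real.exp_add, ← Real.exp_add]
        apply Real.exp_le_exp.mpr
        have h2 := mul_le_mul_of_nonneg_right h33 (show 0 ≤ x ^ 6 by positivity)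
        have h4 : (2 * (cs + cs / 10000) * b + 1) * x ^ 6 =
            2 * ((cs + cs / 10000) * (b * x ^ 6)) + x ^ 6 := by ring
        have h5 : c * C3 * x ^ 6 = c * (C3 * x ^ 6) := by ring
        rw [h4, h5] at h2
        linarith only [h2]
      have h3 : x ^ 3 ≤ (x ^ 6) ^ 1 := by
        rw [pow_one]
        exact pow_le_pow_right₀ hx1 (by norm_num)
      calc C * (A : ℝ) * Real.exp (-(c * (C3 * x ^ 6)))
          ≤ C * (C4 * (x ^ 6) ^ 1) * (P ^ 2 * Real.exp (-(1 * x ^ 6))) := by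
            have : (A : ℝ) ≤ C4 * (x ^ 6) ^ 1 :=
              le_trans hAup (mul_le_mul_of_nonneg_left h3 hC40.le)
            gcongr
        _ = C * C4 * (x ^ 6) ^ 1 * Real.exp (-(1 * x ^ 6)) * P ^ 2 := by ring
        _ ≤ ε' / 4 * P ^ 2 := mul_le_mul_of_nonneg_right e4 (by positivity)
        _ = _ := by ring

end Pool.Agent.H12.INS
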