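import Pool.Agent.H12.INS.ES2

/-!
Module ES of the board ins_modules (MP_57ddd5_pr), part 3: the variance bound.
-/

set_option autoImplicit false

open MeasureTheory ProbabilityTheory
open scoped ENNReal

namespace Pool.Agent.H12.INS.ES

open Pool.Agent.H95.INS Pool.Agent.H99.NS
open Pool.Agent.H97.NF (Nice PEnv eA eB PN Ex Dx FF T_NIC T_INT T_FE2 T_LOC T_GMO mp_updPE mp_eA
  mp_eB measurable_eA measurable_eB cl PN_cl cl_nonneg cl_le_one pairLaw_zero)

section

variable {D : Dat} {s t : ℤ}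

theorem mem_Pv_update (ω : Env) (x : Site) (k : ℕ) : Function.update ω x k ∈ Pv D s t x ↔
    ∃ j, k = j + 1 ∧ Fu D s t (Function.update ω x j) < Fu D s t (Function.update ω x (j + 1)) := by
  unfold Pv
  simp only [Set.mem_ofPred_eq, Function.update_self, Function.update_idem]

theorem meas_Pv (hN : T_NIC) (hne : ∃ h, HPath D s t h) (x : Site) :
    MeasurableSet (Pv D s t x) := by
  have hF : Nice (Sf D s t) (Fu D s t) := Fu_nice hne
  have hm : ∀ k : ℕ, Measurable fun ω : Env => Fu D s t (Function.update ω x k) := fun k =>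
    hN.1 _ _ (hN.2.2.2.1 _ _ x k hF)
  have : Pv D s t x = ⋃ j : ℕ, ({ω | ω x = j + 1} ∩
      {ω | Fu D s t (Function.update ω x j) < Fu D s t (Function.update ω x (j + 1))}) := by
    ext ω
    simp [Pv]
  rw [this]
  refine MeasurableSet.iUnion fun j => MeasurableSet.inter ?_ (measurableSet_lt (hm j) (hm (j + 1)))
  have h1 : MeasurableSet ((fun ω : Env => ω x) ⁻¹' {j + 1}) :=
    (measurable_pi_apply x) MeasurableSet.of_discrete
  exact h1

theorem Dx_sq (hN : T_NIC) (hI : T_INT) (hG : T_GMO) (hne : ∃ h, HPath D s t h) (q : ℝ)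
    (hq0 : 0 < q) (hq1 : q < 1) (x : Site) :
    ∫ ω, (Dx q x (Fu D s t) ω) ^ 2 ∂(PE q) ≤
      1 / q * (∫ k, (k : ℝ) ^ 2 ∂(geo q)) * (PE q).real (Pv D s t x) := by
  have hF : Nice (Sf D s t) (Fu D s t) := Fu_nice hne
  have hDx : Nice (Sf D s t) (Dx q x (Fu D s t)) := hN.2.2.2.2.2.1 q hq0.le hq1 _ _ x hF
  have hint : Integrable (fun ω => (Dx q x (Fu D s t) ω) ^ 2) (PE q) := by
    have := (hI q hq0.le hq1 _ _ _ hDx hDx).2.1
    simpa [sq] using this
  have hmp := mp_updPE q x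
  have hPm := meas_Pv (D := D) (s := s) (t := t) hN hne x
  have hint2 : Integrable (fun p : Env × ℕ => (Dx q x (Fu D s t) (Function.update p.1 x p.2)) ^ 2)
      ((PE q).prod (geo q)) := hmp.integrable_comp_of_integrable hint
  have hind : Integrable ((Pv D s t x).indicator (1 : Env → ℝ)) (PE q) :=
    (integrable_indicator_iff hPm).2 (integrable_const 1).integrableOn
  have hind2 : Integrable (fun p : Env × ℕ => (Pv D s t x).indicator (1 : Env → ℝ)
      (Function.update p.1 x p.2)) ((PE q).prod (geo q)) := hmp.integrable_comp_of_integrable hind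
  have e1 : ∫ ω, (Dx q x (Fu D s t) ω) ^ 2 ∂(PE q) =
      ∫ ω, ∫ k, (Dx q x (Fu D s t) (Function.update ω x k)) ^ 2 ∂(geo q) ∂(PE q) := by
    conv_lhs => rw [← hmp.map_eq]
    rw [integral_map hmp.measurable.aemeasurable (by rw [hmp.map_eq]; exact hint.aestronglyMeasurable),
      integral_prod _ hint2]
  have e2 : (PE q).real (Pv D s t x) =
      ∫ ω, ∫ k, (Pv D s t x).indicator (1 : Env → ℝ) (Function.update ω x k) ∂(geo q) ∂(PE q) := by
    rw [← integral_indicator_one hPm]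
    conv_lhs => rw [← hmp.map_eq]
    rw [integral_map hmp.measurable.aemeasurable (by rw [hmp.map_eq]; exact hind.aestronglyMeasurable),
      integral_prod _ hind2]
  rw [e1, e2, ← integral_const_mul]
  refine integral_mono hint2.integral_prod_left (hind2.integral_prod_left.const_mul _) fun ω => ?_
  have h1 := one_site_var q hq0 hq1 (hG q hq0.le hq1 2)
    (fun k => Fu D s t (Function.update ω x k)) (phi0 hne ω x) (phi1 hne ω x) (phi2 hne ω x)
  have h2 : ∫ k, (Dx q x (Fu D s t) (Function.update ω x k)) ^ 2 ∂(geo q) =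
      ∫ k, (Fu D s t (Function.update ω x k) -
        ∫ j, Fu D s t (Function.update ω x j) ∂(geo q)) ^ 2 ∂(geo q) := by
    congr 1
    funext k
    unfold Dx Ex
    simp only [Function.update_idem]
  have h3 : ∫ k, (Pv D s t x).indicator (1 : Env → ℝ) (Function.update ω x k) ∂(geo q) =
      (geo q).real {k | ∃ j, k = j + 1 ∧
        Fu D s t (Function.update ω x j) < Fu D s t (Function.update ω x (j + 1))} := by
    rw [← integral_indicator_one MeasurableSet.of_discrete]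
    congr 1
    funext k
    by_cases hk : Function.update ω x k ∈ Pv D s t x
    · have hk' : k ∈ {k | ∃ j, k = j + 1 ∧
          Fu D s t (Function.update ω x j) < Fu D s t (Function.update ω x (j + 1))} :=
        (mem_Pv_update ω x k).1 hk
      rw [Set.indicator_of_mem hk, Set.indicator_of_mem hk']
      rfl
    · have hk' : k ∉ {k | ∃ j, k = j + 1 ∧
          Fu D s t (Function.update ω x j) < Fu D s t (Function.update ω x (j + 1))} :=
        fun h => hk ((mem_Pv_update ω x k).2 h)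
      rw [Set.indicator_of_notMem hk, Set.indicator_of_notMem hk']
  show ∫ k, (Dx q x (Fu D s t) (Function.update ω x k)) ^ 2 ∂(geo q) ≤
    1 / q * (∫ k, (k : ℝ) ^ 2 ∂(geo q)) *
      ∫ k, (Pv D s t x).indicator (1 : Env → ℝ) (Function.update ω x k) ∂(geo q)
  rw [h2, h3]
  exact h1

theorem sum_Pv (hN : T_NIC) (hne : ∃ h, HPath D s t h) (hst : s ≤ t) (q : ℝ) (S : Finset Site) :
    ∑ x ∈ S, (PE q).real (Pv D s t x) ≤ ((t - s : ℤ) : ℝ) := by
  classical
  have hPm : ∀ x, MeasurableSet (Pv D s t x) := fun x => meas_Pv hN hne x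
  have hind : ∀ x, Integrable ((Pv D s t x).indicator (1 : Env → ℝ)) (PE q) := fun x =>
    (integrable_indicator_iff (hPm x)).2 (integrable_const 1).integrableOn
  have e1 : ∑ x ∈ S, (PE q).real (Pv D s t x) =
      ∫ ω, ∑ x ∈ S, (Pv D s t x).indicator (1 : Env → ℝ) ω ∂(PE q) := by
    rw [integral_finsetSum _ (fun x _ => hind x)]
    exact Finset.sum_congr rfl fun x _ => (integral_indicator_one (hPm x)).symm
  rw [e1]
  have e2 : ((t - s : ℤ) : ℝ) = ∫ _ω : Env, ((t - s : ℤ) : ℝ) ∂(PE q) := by simp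
  rw [e2]
  refine integral_mono (integrable_finsetSum _ fun x _ => hind x) (integrable_const _) fun ω => ?_
  show ∑ x ∈ S, (Pv D s t x).indicator (1 : Env → ℝ) ω ≤ ((t - s : ℤ) : ℝ)
  have h1 : ∑ x ∈ S, (Pv D s t x).indicator (1 : Env → ℝ) ω =
      ((S.filter fun x => ω ∈ Pv D s t x).card : ℝ) := by
    rw [Finset.card_filter]
    push_cast
    refine Finset.sum_congr rfl fun x _ => ?_
    simp [Set.indicator]
  rw [h1]
  have h2 := Pv_card (D := D) (s := s) (t := t) hne ω S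
  have h3 : ((S.filter fun x => ω ∈ Pv D s t x).card : ℤ) ≤ t - s := by
    have h4 := Int.toNat_of_nonneg (sub_nonneg.2 hst)
    omega
  exact_mod_cast h3

theorem int_eA {q : ℝ} {ρ : Site → ℝ} {g : Env → ℝ} (hg : Measurable g) :
    ∫ E, g (eA E) ∂(PN q ρ) = ∫ ω, g ω ∂(PE q) := by
  have hmp := mp_eA q ρ
  conv_rhs => rw [← hmp.map_eq]
  rw [integral_map hmp.measurable.aemeasurable hg.aestronglyMeasurable]

theorem int_eB {q : ℝ} {ρ : Site → ℝ} {g : Env → ℝ} (hg : Measurable g) :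
    ∫ E, g (eB E) ∂(PN q ρ) = ∫ ω, g ω ∂(PE q) := by
  have hmp := mp_eB q ρ
  conv_rhs => rw [← hmp.map_eq]
  rw [integral_map hmp.measurable.aemeasurable hg.aestronglyMeasurable]

theorem FF_le (hN : T_NIC) (hI : T_INT) {q : ℝ} (hq0 : 0 ≤ q) (hq1 : q < 1) {S : Finset Site}
    {g : Env → ℝ} (hg : Nice S g) (ρ : Site → ℝ) : FF q g g ρ ≤ ∫ ω, (g ω) ^ 2 ∂(PE q) := by
  have hm := hN.1 S g hg
  obtain ⟨h1, -, -⟩ := hI q hq0 hq1 S g g hg hg
  obtain ⟨i1, i2, i3⟩ := h1 ρ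
  have e1 : ∫ E, g (eA E) * g (eA E) ∂(PN q ρ) = ∫ ω, (g ω) ^ 2 ∂(PE q) := by
    rw [int_eA (g := fun ω => g ω * g ω) (hm.mul hm)]
    simp only [sq]
  have e2 : ∫ E, g (eB E) * g (eB E) ∂(PN q ρ) = ∫ ω, (g ω) ^ 2 ∂(PE q) := by
    rw [int_eB (g := fun ω => g ω * g ω) (hm.mul hm)]
    simp only [sq]
  have h2 : FF q g g ρ ≤ ∫ E, (1 / 2 : ℝ) * (g (eA E) * g (eA E) + g (eB E) * g (eB E)) ∂(PN q ρ) := by
    unfold FF
    refine integral_mono i1 ((i2.add i3).const_mul _) fun E => ?_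
    show g (eA E) * g (eB E) ≤ 1 / 2 * (g (eA E) * g (eA E) + g (eB E) * g (eB E))
    nlinarith [sq_nonneg (g (eA E) - g (eB E))]
  rw [integral_const_mul, integral_add i2 i3, e1, e2] at h2
  linarith

theorem FF_zero (hN : T_NIC) {q : ℝ} {S : Finset Site} {g : Env → ℝ} (hg : Nice S g) :
    FF q g g (fun _ => 0) = ∫ ω, (g ω) ^ 2 ∂(PE q) := by
  have hm := hN.1 S g hg
  have h := Measure.infinitePi_map_pi (fun _ : Site => geo q) (f := fun _ (k : ℕ) => (k, k))
    (fun _ => measurable_from_nat)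
  have e : PN q (fun _ => 0) = (PE q).map (fun ω x => (ω x, ω x)) := by
    unfold PN PE
    rw [h]
    congr 1
    funext x
    exact pairLaw_zero q
  unfold FF
  have hm2 : Measurable (fun E : PEnv => g (eA E) * g (eB E)) :=
    (hm.comp measurable_eA).mul (hm.comp measurable_eB)
  rw [e, integral_map (by fun_prop) hm2.aestronglyMeasurable]
  congr 1
  funext ω
  rw [sq]
  rfl

theorem main_ineq (hN : T_NIC) (hI : T_INT) (hF2 : T_FE2) (hL : T_LOC) {q : ℝ} (hq0 : 0 ≤ q)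
    (hq1 : q < 1) {S : Finset Site} {g : Env → ℝ} (hg : Nice S g) (ρ : Site → ℝ) (r : ℝ)
    (hρ : ∀ x, 0 ≤ ρ x ∧ ρ x ≤ 1 ∧ ρ x ≤ r) :
    ∫ ω, (g ω) ^ 2 ∂(PE q) ≤ FF q g g ρ + r * ∑ x ∈ S, ∫ ω, (Dx q x g ω) ^ 2 ∂(PE q) := by
  classical
  have key : ∀ T : Finset Site, FF q g g (fun x => if x ∈ T then 0 else ρ x) ≤
      FF q g g ρ + r * ∑ x ∈ T, ∫ ω, (Dx q x g ω) ^ 2 ∂(PE q) := by
    intro T
    induction T using Finset.induction_on with
    | empty => simp
    | insert x T hx ih =>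
      obtain ⟨τ, hτ⟩ : ∃ τ : Site → ℝ, τ = fun x => if x ∈ T then 0 else ρ x := ⟨_, rfl⟩
      have e1 : (fun y => if y ∈ insert x T then 0 else ρ y) = Function.update τ x 0 := by
        funext y
        by_cases hy : y = x
        · subst hy; simp
        · rw [Function.update_of_ne hy, hτ]
          simp [hy]
      have e2 : τ = Function.update τ x (ρ x) := by
        funext y
        by_cases hy : y = x
        · subst hy
          rw [Function.update_self, hτ]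
          simp [hx]
        · rw [Function.update_of_ne hy]
      have f1 := (hF2 q hq0 hq1 S g g hg hg τ x 0 le_rfl zero_le_one).1
      have f2 := (hF2 q hq0 hq1 S g g hg hg τ x (ρ x) (hρ x).1 (hρ x).2.1).1
      rw [← e2] at f2
      rw [← hτ] at ih
      have hDx : Nice S (Dx q x g) := hN.2.2.2.2.2.1 q hq0 hq1 _ _ x hg
      have f3 := FF_le hN hI hq0 hq1 hDx (Function.update τ x 0)
      have f4 : 0 ≤ ∫ ω, (Dx q x g ω) ^ 2 ∂(PE q) := integral_nonneg fun ω => sq_nonneg _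
      rw [e1, Finset.sum_insert hx, f1]
      obtain ⟨h1, h2, h3⟩ := hρ x
      generalize ∫ ω, (Dx q x g ω) ^ 2 ∂(PE q) = I0 at f3 f4 ⊢
      generalize FF q (Dx q x g) (Dx q x g) (Function.update τ x 0) = I1 at f2 f3 ⊢
      have f5 : ρ x * I1 ≤ r * I0 := by
        calc ρ x * I1 ≤ ρ x * I0 := mul_le_mul_of_nonneg_left f3 h1
          _ ≤ r * I0 := mul_le_mul_of_nonneg_right h3 f4
      rw [mul_add]
      linarith
  have h1 := key S
  have h2 := hL q S g g hg hg (fun x => if x ∈ S then 0 else ρ x) (fun _ => 0)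
    (fun x hx => if_pos hx)
  rw [h2, FF_zero hN hg] at h1
  exact h1

theorem diff_sq (hN : T_NIC) (hI : T_INT) {q : ℝ} (hq0 : 0 ≤ q) (hq1 : q < 1) {S : Finset Site}
    {g : Env → ℝ} (hg : Nice S g) (ρ : Site → ℝ) :
    Integrable (fun E => (g (eA E) - g (eB E)) ^ 2) (PN q ρ) ∧
    ∫ E, (g (eA E) - g (eB E)) ^ 2 ∂(PN q ρ) = 2 * (∫ ω, (g ω) ^ 2 ∂(PE q) - FF q g g ρ) := by
  have hm := hN.1 S g hg
  obtain ⟨h1, -, -⟩ := hI q hq0 hq1 S g g hg hg
  obtain ⟨i1, i2, i3⟩ := h1 ρ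
  have e1 : ∫ E, g (eA E) * g (eA E) ∂(PN q ρ) = ∫ ω, (g ω) ^ 2 ∂(PE q) := by
    rw [int_eA (g := fun ω => g ω * g ω) (hm.mul hm)]
    simp only [sq]
  have e2 : ∫ E, g (eB E) * g (eB E) ∂(PN q ρ) = ∫ ω, (g ω) ^ 2 ∂(PE q) := by
    rw [int_eB (g := fun ω => g ω * g ω) (hm.mul hm)]
    simp only [sq]
  have e3 : (fun E => (g (eA E) - g (eB E)) ^ 2) = fun E => (g (eA E) * g (eA E) +
      g (eB E) * g (eB E)) - 2 * (g (eA E) * g (eB E)) := by
    funext E
    ring
  have i23 : Integrable (fun E => g (eA E) * g (eA E) + g (eB E) * g (eB E)) (PN q ρ) := i2.add i3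
  rw [e3]
  refine ⟨i23.sub (i1.const_mul 2), ?_⟩
  rw [integral_sub i23 (i1.const_mul 2), integral_const_mul]
  have e4 : ∫ E, g (eA E) * g (eA E) + g (eB E) * g (eB E) ∂(PN q ρ) =
      ∫ E, g (eA E) * g (eA E) ∂(PN q ρ) + ∫ E, g (eB E) * g (eB E) ∂(PN q ρ) :=
    integral_add i2 i3
  rw [e4, e1, e2]
  unfold FF
  ring

end

theorem pf_ES (hN : T_NIC) (hI : T_INT) (hF2 : T_FE2) (hL : T_LOC) (hG : T_GMO) : T_ES := by
  intro q hq0 hq1
  obtain ⟨K, hK⟩ : ∃ K : ℝ, K = 1 / q * ∫ k, (k : ℝ) ^ 2 ∂(geo q) := ⟨_, rfl⟩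
  have hK0 : 0 ≤ K := by
    rw [hK]
    exact mul_nonneg (by positivity) (integral_nonneg fun k => sq_nonneg _)
  refine ⟨1000 ^ 2 * (2 * K) + 1, by positivity, ?_⟩
  intro D hDq hOk s t r ρ hst hts hr hρ
  have hn : (1 : ℝ) ≤ D.n := by exact_mod_cast hOk.n1
  have hf := hOk.f0
  have hs : 0 < sg D.q := by
    unfold sg
    exact div_pos (Real.sqrt_pos.mpr hOk.q0) (by linarith [hOk.q1])
  have hH : 0 < D.H := by
    have h1 := hOk.c1
    have h2 : 0 ≤ 3 * D.K * (1 + D.B) := by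
      have := hOk.K0
      have := hOk.B0
      positivity
    have h3 : 0 ≤ sg D.q * D.B ^ 2 := by positivity
    linarith
  have hHf : 0 < D.H * D.f := mul_pos hH hf
  by_cases hne : ∃ h, HPath D s t h
  swap
  · have : {E : PEnv | HWs D (eA E) s t 1 ∧ ¬ HWs D (eB E) s t (999 / 1000)} = ∅ := by
      ext E
      simp only [Set.mem_ofPred_eq, Set.mem_empty_iff_false, iff_false, not_and]
      rintro ⟨h, hh, -⟩
      exact absurd ⟨h, hh⟩ hne
    rw [this, measure_empty]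
    exact zero_le
  have hFn : Nice (Sf D s t) (Fu D s t) := Fu_nice hne
  -- the mean square
  obtain ⟨ρ', hρ'⟩ : ∃ ρ' : Site → ℝ, ρ' = fun x => cl (ρ x) := ⟨_, rfl⟩
  have hρ'' : ∀ x, 0 ≤ ρ' x ∧ ρ' x ≤ 1 ∧ ρ' x ≤ r := by
    intro x
    rw [hρ']
    refine ⟨cl_nonneg _, cl_le_one _, ?_⟩
    show max 0 (min (ρ x) 1) ≤ r
    exact max_le hr (le_trans (min_le_left _ _) (hρ x).2)
  have hPN : PN q ρ' = PN q ρ := by
    rw [hρ']
    exact PN_cl q ρ
  have h1 := main_ineq hN hI hF2 hL hq0.le hq1 hFn ρ' r hρ''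
  obtain ⟨hint, h2⟩ := diff_sq hN hI hq0.le hq1 hFn ρ'
  have h3 : ∑ x ∈ Sf D s t, ∫ ω, (Dx q x (Fu D s t) ω) ^ 2 ∂(PE q) ≤ K * D.n := by
    calc ∑ x ∈ Sf D s t, ∫ ω, (Dx q x (Fu D s t) ω) ^ 2 ∂(PE q)
        ≤ ∑ x ∈ Sf D s t, K * (PE q).real (Pv D s t x) := by
          refine Finset.sum_le_sum fun x _ => ?_
          rw [hK]
          exact Dx_sq hN hI hG hne q hq0 hq1 x
      _ = K * ∑ x ∈ Sf D s t, (PE q).real (Pv D s t x) := by rw [Finset.mul_sum]
      _ ≤ K * ((t - s : ℤ) : ℝ) := mul_le_mul_of_nonneg_left (sum_Pv hN hne hst q _) hK0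
      _ ≤ K * D.n := by
          apply mul_le_mul_of_nonneg_left _ hK0
          exact_mod_cast hts
  have h4 : ∫ E, (Fu D s t (eA E) - Fu D s t (eB E)) ^ 2 ∂(PN q ρ') ≤ 2 * (r * (K * D.n)) := by
    rw [h2]
    have := mul_le_mul_of_nonneg_left h3 hr
    linarith
  -- Markov
  have h5 : {E : PEnv | HWs D (eA E) s t 1 ∧ ¬ HWs D (eB E) s t (999 / 1000)} ⊆
      {E | (D.H * D.f / 1000) ^ 2 ≤ (Fu D s t (eA E) - Fu D s t (eB E)) ^ 2} := by
    rintro E ⟨⟨h, hh, he⟩, hB⟩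
    have h6 := le_Fu (eA E) hh
    obtain ⟨g, hg, hge⟩ := Fu_att hne (eB E)
    have h7 : Exc D.q (eB E) s t g < 999 / 1000 * D.H * D.f := by
      by_contra hcon
      push Not at hcon
      exact hB ⟨g, hg, hcon⟩
    simp only [Set.mem_ofPred_eq]
    apply pow_le_pow_left₀ (by positivity)
    rw [hge]
    have e1 : 1 * D.H * D.f = D.H * D.f := by ring
    have e2 : 999 / 1000 * D.H * D.f = 999 / 1000 * (D.H * D.f) := by ring
    rw [e1] at he
    rw [e2] at h7
    linarith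
  have h6 := mul_meas_ge_le_integral_of_nonneg (μ := PN q ρ')
    (f := fun E => (Fu D s t (eA E) - Fu D s t (eB E)) ^ 2) (ae_of_all _ fun E => sq_nonneg _) hint
    ((D.H * D.f / 1000) ^ 2)
  have hpos : 0 < (D.H * D.f / 1000) ^ 2 := by positivity
  have h7 : (PN q ρ').real {E | (D.H * D.f / 1000) ^ 2 ≤
      (Fu D s t (eA E) - Fu D s t (eB E)) ^ 2} ≤
      (1000 ^ 2 * (2 * K) + 1) * r * D.n / (D.H * D.f) ^ 2 := by
    have h8 := le_trans h6 h4
    rw [mul_comm, ← le_div_iff₀ hpos] at h8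
    refine le_trans h8 ?_
    rw [div_pow, div_div_eq_mul_div]
    apply div_le_div_of_nonneg_right _ (by positivity)
    have h9 : 0 ≤ r * D.n := by positivity
    nlinarith
  rw [← hPN]
  calc PN q ρ' {E | HWs D (eA E) s t 1 ∧ ¬ HWs D (eB E) s t (999 / 1000)}
      ≤ PN q ρ' {E | (D.H * D.f / 1000) ^ 2 ≤ (Fu D s t (eA E) - Fu D s t (eB E)) ^ 2} :=
        measure_mono h5
    _ = ENNReal.ofReal ((PN q ρ').real {E | (D.H * D.f / 1000) ^ 2 ≤
        (Fu D s t (eA E) - Fu D s t (eB E)) ^ 2}) := by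
        rw [Measure.real, ENNReal.ofReal_toReal (measure_ne_top _ _)]
    _ ≤ _ := ENNReal.ofReal_le_ofReal h7

end Pool.Agent.H12.INS.ES
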