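import Pool.Agent.H95.INS.Targets2
import Pool.Agent.H97.NF.Pair

/-!
Module ES of the board ins_modules (MP_57ddd5_pr), part 1: one site.
-/

set_option autoImplicit false

open MeasureTheory ProbabilityTheory
open scoped ENNReal

namespace Pool.Agent.H12.INS.ES

open Pool.Agent.H99.NS

theorem lint_geo (q : ℝ) (hq0 : 0 ≤ q) (hq1 : q < 1) (g : ℕ → ℝ≥0∞) :
    ∫⁻ k, g k ∂(geo q) = ∑' k : ℕ, ENNReal.ofReal ((1 - q) * q ^ k) * g k := by
  unfold geo
  rw [if_pos ⟨hq0, hq1⟩, lintegral_sum_measure]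
  congr 1
  funext k
  rw [lintegral_smul_measure, lintegral_dirac, smul_eq_mul]

theorem geo_shift (q : ℝ) (hq0 : 0 ≤ q) (hq1 : q < 1) (m : ℕ) (g : ℕ → ℝ≥0∞)
    (hg : ∀ k < m, g k = 0) :
    ∫⁻ k, g k ∂(geo q) = ENNReal.ofReal q ^ m * ∫⁻ k, g (k + m) ∂(geo q) := by
  rw [lint_geo q hq0 hq1, lint_geo q hq0 hq1, ← ENNReal.tsum_mul_left]
  have h1 := (add_left_injective m).tsum_eq (f := fun k => ENNReal.ofReal ((1 - q) * q ^ k) * g k)
    (by
      intro k hk
      rw [Function.mem_support] at hk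
      by_contra hcon
      apply hk
      have : k < m := by
        by_contra h
        push Not at h
        exact hcon ⟨k - m, Nat.sub_add_cancel h⟩
      rw [hg k this, mul_zero])
  rw [← h1]
  congr 1
  funext k
  rw [← ENNReal.ofReal_pow hq0, ← mul_assoc, ← ENNReal.ofReal_mul (by positivity)]
  congr 2
  rw [pow_add]
  ring

theorem geo_ge (q : ℝ) (hq0 : 0 ≤ q) (hq1 : q < 1) (m : ℕ) :
    geo q {k | m ≤ k} = ENNReal.ofReal q ^ m := by
  have h1 : geo q {k | m ≤ k} = ∫⁻ k, (if m ≤ k then 1 else 0) ∂(geo q) := by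
    rw [← lintegral_indicator_one (MeasurableSet.of_discrete)]
    congr 1
    funext k
    simp [Set.indicator]
  rw [h1, geo_shift q hq0 hq1 m _ (fun k hk => if_neg (by omega))]
  simp

/-- one site -/
theorem one_site (q : ℝ) (hq0 : 0 < q) (hq1 : q < 1) (φ : ℕ → ℝ) (h0 : ∀ k, φ k ≤ φ (k + 1))
    (h1 : ∀ k, φ (k + 1) ≤ φ k + 1) (h2 : ∀ k, φ k < φ (k + 1) → φ (k + 1) < φ (k + 2)) :
    ∫⁻ k, ENNReal.ofReal ((φ k - φ 0) ^ 2) ∂(geo q) ≤
      ENNReal.ofReal (1 / q) * (∫⁻ k, ENNReal.ofReal ((k : ℝ) ^ 2) ∂(geo q)) *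
        geo q {k | ∃ j, k = j + 1 ∧ φ j < φ (j + 1)} := by
  classical
  have hmono : Monotone φ := monotone_nat_of_le_succ h0
  by_cases hex : ∃ k, φ k < φ (k + 1)
  · obtain ⟨m, hm, hmin⟩ : ∃ m, φ m < φ (m + 1) ∧ ∀ j < m, ¬ φ j < φ (j + 1) :=
      ⟨Nat.find hex, Nat.find_spec hex, fun j hj => Nat.find_min hex hj⟩
    have hconst : ∀ k ≤ m, φ k = φ 0 := by
      intro k
      induction k with
      | zero => intro _; rfl
      | succ k ih =>
        intro hk
        have h3 := hmin k (by omega)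
        have h4 := h0 k
        rw [← ih (by omega)]
        exact le_antisymm (not_lt.1 h3) h4
    have hup : ∀ k, φ (k + m) ≤ φ 0 + k := by
      intro k
      induction k with
      | zero =>
        rw [Nat.zero_add, hconst m le_rfl]
        simp
      | succ k ih =>
        have h3 := h1 (k + m)
        rw [show k + 1 + m = k + m + 1 by ring]
        push_cast
        linarith
    have hlo : ∀ k, φ 0 ≤ φ k := fun k => hmono (Nat.zero_le k)
    have hst : ∀ j, φ (j + m) < φ (j + m + 1) := by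
      intro j
      induction j with
      | zero => rw [Nat.zero_add]; exact hm
      | succ j ih =>
        have h3 := h2 _ ih
        rw [show j + 1 + m = j + m + 1 by ring]
        exact h3
    have hset : {k | ∃ j, k = j + 1 ∧ φ j < φ (j + 1)} = {k | m + 1 ≤ k} := by
      ext k
      simp only [Set.mem_ofPred_eq]
      constructor
      · rintro ⟨j, rfl, hj⟩
        by_contra hcon
        exact hmin j (by omega) hj
      · intro hk
        refine ⟨k - 1, by omega, ?_⟩
        have h3 := hst (k - 1 - m)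
        rw [Nat.sub_add_cancel (by omega)] at h3
        exact h3
    rw [hset, geo_ge q hq0.le hq1, geo_shift q hq0.le hq1 m _ (fun k hk => by
      rw [hconst k hk.le, sub_self]; simp)]
    have h3 : ∫⁻ k, ENNReal.ofReal ((φ (k + m) - φ 0) ^ 2) ∂(geo q) ≤
        ∫⁻ k, ENNReal.ofReal ((k : ℝ) ^ 2) ∂(geo q) := by
      refine lintegral_mono fun k => ENNReal.ofReal_le_ofReal ?_
      apply pow_le_pow_left₀
      · linarith [hlo (k + m)]
      · linarith [hup k]
    have h4 : ENNReal.ofReal (1 / q) * ENNReal.ofReal q = 1 := by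
      rw [← ENNReal.ofReal_mul (by positivity), one_div, inv_mul_cancel₀ hq0.ne',
        ENNReal.ofReal_one]
    calc ENNReal.ofReal q ^ m * ∫⁻ k, ENNReal.ofReal ((φ (k + m) - φ 0) ^ 2) ∂(geo q)
        ≤ ENNReal.ofReal q ^ m * ∫⁻ k, ENNReal.ofReal ((k : ℝ) ^ 2) ∂(geo q) :=
          mul_le_mul_right h3 _
      _ = (ENNReal.ofReal (1 / q) * ENNReal.ofReal q) * (ENNReal.ofReal q ^ m *
          ∫⁻ k, ENNReal.ofReal ((k : ℝ) ^ 2) ∂(geo q)) := by rw [h4, one_mul]
      _ = _ := by rw [pow_succ]; ring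
  · push Not at hex
    have hconst : ∀ k, φ k = φ 0 := by
      intro k
      induction k with
      | zero => rfl
      | succ k ih => rw [← ih]; exact le_antisymm (hex k) (h0 k)
    simp [hconst]

/-- one site, variance -/
theorem one_site_var (q : ℝ) (hq0 : 0 < q) (hq1 : q < 1)
    (hG : Integrable (fun k : ℕ => (k : ℝ) ^ 2) (geo q)) (φ : ℕ → ℝ) (h0 : ∀ k, φ k ≤ φ (k + 1))
    (h1 : ∀ k, φ (k + 1) ≤ φ k + 1) (h2 : ∀ k, φ k < φ (k + 1) → φ (k + 1) < φ (k + 2)) :
    ∫ k, (φ k - ∫ j, φ j ∂(geo q)) ^ 2 ∂(geo q) ≤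
      1 / q * (∫ k, (k : ℝ) ^ 2 ∂(geo q)) * (geo q).real {k | ∃ j, k = j + 1 ∧ φ j < φ (j + 1)} := by
  have hmono : Monotone φ := monotone_nat_of_le_succ h0
  have hlo : ∀ k, φ 0 ≤ φ k := fun k => hmono (Nat.zero_le k)
  have hup : ∀ k : ℕ, φ k - φ 0 ≤ k := by
    intro k
    induction k with
    | zero => simp
    | succ k ih =>
      have := h1 k
      push_cast
      linarith
  have hsq : ∀ k : ℕ, (φ k - φ 0) ^ 2 ≤ (k : ℝ) ^ 2 := fun k =>
    pow_le_pow_left₀ (by linarith [hlo k]) (hup k) 2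
  have hint : Integrable (fun k => (φ k - φ 0) ^ 2) (geo q) := by
    refine hG.mono' (measurable_of_countable _).aestronglyMeasurable (ae_of_all _ fun k => ?_)
    rw [Real.norm_of_nonneg (sq_nonneg _)]
    exact hsq k
  have hv1 : ∫ k, (φ k - ∫ j, φ j ∂(geo q)) ^ 2 ∂(geo q) = Var[φ; geo q] :=
    (variance_eq_integral (measurable_of_countable φ).aemeasurable).symm
  have hv2 : Var[φ; geo q] = Var[fun k => φ k - φ 0; geo q] :=
    (variance_sub_const (measurable_of_countable φ).aestronglyMeasurable _).symm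
  have hv3 : Var[fun k => φ k - φ 0; geo q] ≤ ∫ k, (φ k - φ 0) ^ 2 ∂(geo q) :=
    variance_le_expectation_sq (measurable_of_countable _).aestronglyMeasurable
  rw [hv1, hv2]
  refine le_trans hv3 ?_
  rw [integral_eq_lintegral_of_nonneg_ae (ae_of_all _ fun k => sq_nonneg _)
    hint.aestronglyMeasurable,
    integral_eq_lintegral_of_nonneg_ae (ae_of_all _ fun k => sq_nonneg _) hG.aestronglyMeasurable]
  have hfin : ∫⁻ k, ENNReal.ofReal ((k : ℝ) ^ 2) ∂(geo q) ≠ ∞ := by
    have := hG.lintegral_lt_top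
    exact this.ne
  have h3 := ENNReal.toReal_mono (ENNReal.mul_ne_top (ENNReal.mul_ne_top ENNReal.ofReal_ne_top hfin)
    (measure_ne_top _ _)) (one_site q hq0 hq1 φ h0 h1 h2)
  rw [ENNReal.toReal_mul, ENNReal.toReal_mul, ENNReal.toReal_ofReal (by positivity)] at h3
  exact h3

end Pool.Agent.H12.INS.ES
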