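import Pool.Agent.H12.INS.ES1

/-!
Module ES of the board ins_modules (MP_57ddd5_pr), part 2: the highway functional.
-/

set_option autoImplicit false

open MeasureTheory ProbabilityTheory
open scoped ENNReal

namespace Pool.Agent.H12.INS.ES

open Pool.Agent.H95.INS Pool.Agent.H99.NS
open Pool.Agent.H97.NF (Nice)

section

variable (D : Dat) (s t : ℤ)

/-- values of the highways -/
def V (ω : Env) : Set ℝ := {e | ∃ h, HPath D s t h ∧ e = Exc D.q ω s t h}

/-- the highway functional -/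
noncomputable def Fu (ω : Env) : ℝ := sSup (V D s t ω)

/-- sites of the narrow strip -/
noncomputable def Sf : Finset Site :=
  (Finset.Ioc s t) ×ˢ (Finset.Icc (-(D.A / 2 * D.w)) (D.A / 2 * D.w))

variable {D s t}

theorem site_mem {h : ℤ → ℤ} (hh : HPath D s t h) {r : ℤ} (h1 : s < r) (h2 : r ≤ t) :
    ((r, h r) : Site) ∈ Sf D s t := by
  have h3 : |h r| ≤ D.A / 2 * D.w := by
    have := hh.2.1 r h1.le h2
    omega
  rw [abs_le] at h3
  unfold Sf
  rw [Finset.mem_product, Finset.mem_Ioc, Finset.mem_Icc]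
  exact ⟨⟨h1, h2⟩, h3⟩

theorem wt_nat (ω : Env) (h : ℤ → ℤ) :
    wt ω s t h = ((∑ r ∈ Finset.Ioc s t, ω (r, h r) : ℕ) : ℝ) := by
  unfold wt
  push_cast
  rfl

theorem wt_nat_le (ω : Env) {h : ℤ → ℤ} (hh : HPath D s t h) :
    ∑ r ∈ Finset.Ioc s t, ω (r, h r) ≤ ∑ x ∈ Sf D s t, ω x := by
  have h1 : ∑ r ∈ Finset.Ioc s t, ω (r, h r) =
      ∑ x ∈ (Finset.Ioc s t).image (fun r => ((r, h r) : Site)), ω x := by
    rw [Finset.sum_image]
    intro a _ b _ hab
    exact congrArg Prod.fst hab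
  rw [h1]
  apply Finset.sum_le_sum_of_subset
  intro x hx
  rw [Finset.mem_image] at hx
  obtain ⟨r, hr, rfl⟩ := hx
  rw [Finset.mem_Ioc] at hr
  exact site_mem hh hr.1 hr.2

theorem V_finite (ω : Env) : (V D s t ω).Finite := by
  classical
  refine Set.Finite.subset (((Finset.range (∑ x ∈ Sf D s t, ω x + 1)) ×ˢ
    ((Finset.Icc (-D.w) D.w) ×ˢ (Finset.Icc (-D.w) D.w))).image
      (fun p : ℕ × (ℤ × ℤ) => (p.1 : ℝ) - par D.q (s, p.2.1) (t, p.2.2))).finite_toSet ?_
  rintro e ⟨h, hh, rfl⟩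
  rw [Finset.coe_image]
  refine ⟨(∑ r ∈ Finset.Ioc s t, ω (r, h r), (h s, h t)), ?_, ?_⟩
  · simp only [Finset.coe_product, Set.mem_prod, Finset.mem_coe, Finset.mem_range,
      Finset.mem_Icc]
    have h1 := hh.2.2.1
    have h2 := hh.2.2.2.1
    rw [abs_le] at h1 h2
    exact ⟨Nat.lt_succ_of_le (wt_nat_le ω hh), h1, h2⟩
  · unfold Exc
    rw [wt_nat]

theorem le_Fu (ω : Env) {h : ℤ → ℤ} (hh : HPath D s t h) : Exc D.q ω s t h ≤ Fu D s t ω :=
  le_csSup (V_finite ω).bddAbove ⟨h, hh, rfl⟩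

theorem Fu_att (hne : ∃ h, HPath D s t h) (ω : Env) :
    ∃ h, HPath D s t h ∧ Fu D s t ω = Exc D.q ω s t h := by
  obtain ⟨h, hh⟩ := hne
  exact Set.Nonempty.csSup_mem (s := V D s t ω) ⟨_, h, hh, rfl⟩ (V_finite ω)

/-- the path `h` passes through `x` -/
def Thr (s t : ℤ) (h : ℤ → ℤ) (x : Site) : Prop := x.1 ∈ Finset.Ioc s t ∧ h x.1 = x.2

open Classical in
theorem wt_update (ω : Env) (x : Site) (k : ℕ) (h : ℤ → ℤ) :
    wt (Function.update ω x k) s t h = wt ω s t h +
      (if Thr s t h x then (k : ℝ) - ω x else 0) := by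
  unfold wt
  have h1 : ∀ r ∈ Finset.Ioc s t, ((Function.update ω x k (r, h r) : ℕ) : ℝ) =
      ω (r, h r) + (if r = x.1 then (if h x.1 = x.2 then (k : ℝ) - ω x else 0) else 0) := by
    intro r _
    by_cases hr : r = x.1
    · rw [if_pos hr]
      by_cases h2 : h x.1 = x.2
      · have e : ((r, h r) : Site) = x := by rw [hr, h2]
        rw [if_pos h2, e, Function.update_self]
        ring
      · have e : ((r, h r) : Site) ≠ x := by
          intro e
          apply h2
          rw [← hr]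
          exact congrArg Prod.snd e
        rw [if_neg h2, Function.update_of_ne e, add_zero]
    · have e : ((r, h r) : Site) ≠ x := fun e => hr (congrArg Prod.fst e)
      rw [if_neg hr, Function.update_of_ne e, add_zero]
  rw [Finset.sum_congr rfl h1, Finset.sum_add_distrib, Finset.sum_ite_eq']
  congr 1
  by_cases hT : Thr s t h x
  · rw [if_pos hT, if_pos hT.1, if_pos hT.2]
  · rw [if_neg hT]
    by_cases h2 : x.1 ∈ Finset.Ioc s t
    · rw [if_pos h2, if_neg (fun h3 => hT ⟨h2, h3⟩)]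
    · rw [if_neg h2]

open Classical in
theorem Exc_update (ω : Env) (x : Site) (k : ℕ) (h : ℤ → ℤ) :
    Exc D.q (Function.update ω x k) s t h = Exc D.q ω s t h +
      (if Thr s t h x then (k : ℝ) - ω x else 0) := by
  unfold Exc
  rw [wt_update]
  ring

open Classical in
theorem Exc_succ (ω : Env) (x : Site) (k : ℕ) (h : ℤ → ℤ) :
    Exc D.q (Function.update ω x (k + 1)) s t h = Exc D.q (Function.update ω x k) s t h +
      (if Thr s t h x then 1 else 0) := by
  rw [Exc_update, Exc_update]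
  split_ifs
  · push_cast
    ring
  · ring

theorem phi0 (hne : ∃ h, HPath D s t h) (ω : Env) (x : Site) (k : ℕ) :
    Fu D s t (Function.update ω x k) ≤ Fu D s t (Function.update ω x (k + 1)) := by
  obtain ⟨h, hh, he⟩ := Fu_att hne (Function.update ω x k)
  rw [he]
  refine le_trans ?_ (le_Fu _ hh)
  rw [Exc_succ]
  split_ifs
  · linarith
  · linarith

theorem phi1 (hne : ∃ h, HPath D s t h) (ω : Env) (x : Site) (k : ℕ) :
    Fu D s t (Function.update ω x (k + 1)) ≤ Fu D s t (Function.update ω x k) + 1 := by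
  obtain ⟨h, hh, he⟩ := Fu_att hne (Function.update ω x (k + 1))
  rw [he, Exc_succ]
  have := le_Fu (Function.update ω x k) hh
  split_ifs
  · linarith
  · linarith

open Classical in
theorem phi2 (hne : ∃ h, HPath D s t h) (ω : Env) (x : Site) (k : ℕ)
    (hk : Fu D s t (Function.update ω x k) < Fu D s t (Function.update ω x (k + 1))) :
    Fu D s t (Function.update ω x (k + 1)) < Fu D s t (Function.update ω x (k + 2)) := by
  obtain ⟨h, hh, he⟩ := Fu_att hne (Function.update ω x (k + 1))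
  have h1 := le_Fu (Function.update ω x k) hh
  have h2 := le_Fu (Function.update ω x (k + 2)) hh
  have h3 := Exc_succ (D := D) (s := s) (t := t) ω x k h
  have h4 := Exc_succ (D := D) (s := s) (t := t) ω x (k + 1) h
  rw [show k + 1 + 1 = k + 2 by ring] at h4
  by_cases hT : Thr s t h x
  · rw [if_pos hT] at h4
    rw [he]
    linarith
  · rw [if_neg hT] at h3
    rw [he] at hk
    linarith

/-- the site `x` is pivotal -/
def Pv (D : Dat) (s t : ℤ) (x : Site) : Set Env :=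
  {ω | ∃ j, ω x = j + 1 ∧ Fu D s t (Function.update ω x j) < Fu D s t (Function.update ω x (j + 1))}

open Classical in
theorem Pv_thr {ω : Env} {x : Site} (hx : ω ∈ Pv D s t x) {h : ℤ → ℤ} (hh : HPath D s t h)
    (he : Fu D s t ω = Exc D.q ω s t h) : Thr s t h x := by
  obtain ⟨j, hj, hlt⟩ := hx
  have e : Function.update ω x (j + 1) = ω := by
    rw [← hj]
    exact Function.update_eq_self x ω
  rw [e, he] at hlt
  by_contra hT
  have h1 := le_Fu (Function.update ω x j) hh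
  rw [Exc_update, if_neg hT, add_zero] at h1
  linarith

open Classical in
theorem Pv_card (hne : ∃ h, HPath D s t h) (ω : Env) (S : Finset Site) :
    (S.filter fun x => ω ∈ Pv D s t x).card ≤ (t - s).toNat := by
  obtain ⟨h, hh, he⟩ := Fu_att hne ω
  have h1 : S.filter (fun x => ω ∈ Pv D s t x) ⊆
      (Finset.Ioc s t).image (fun r => ((r, h r) : Site)) := by
    intro x hx
    rw [Finset.mem_filter] at hx
    have h2 := Pv_thr hx.2 hh he
    rw [Finset.mem_image]
    exact ⟨x.1, h2.1, by rw [h2.2]⟩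
  refine le_trans (Finset.card_le_card h1) (le_trans Finset.card_image_le ?_)
  rw [Int.card_Ioc]

theorem par_bound (D : Dat) (s t : ℤ) :
    ∃ c : ℝ, 0 ≤ c ∧ ∀ x y : ℤ, |x| ≤ D.w → |y| ≤ D.w → |par D.q (s, x) (t, y)| ≤ c := by
  refine ⟨∑ x ∈ Finset.Icc (-D.w) D.w, ∑ y ∈ Finset.Icc (-D.w) D.w, |par D.q (s, x) (t, y)|,
    Finset.sum_nonneg fun x _ => Finset.sum_nonneg fun y _ => abs_nonneg _, ?_⟩
  intro x y hx hy
  rw [abs_le] at hx hy
  have h1 : |par D.q (s, x) (t, y)| ≤ ∑ y ∈ Finset.Icc (-D.w) D.w, |par D.q (s, x) (t, y)| :=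
    Finset.single_le_sum (f := fun y => |par D.q (s, x) (t, y)|) (fun y _ => abs_nonneg _)
      (Finset.mem_Icc.2 hy)
  refine le_trans h1 ?_
  exact Finset.single_le_sum
    (f := fun x => ∑ y ∈ Finset.Icc (-D.w) D.w, |par D.q (s, x) (t, y)|)
    (fun x _ => Finset.sum_nonneg fun y _ => abs_nonneg _) (Finset.mem_Icc.2 hx)

theorem Fu_nice (hne : ∃ h, HPath D s t h) :
    Nice (Sf D s t) (Fu D s t) := by
  have key : ∀ ω ω' : Env, (∀ x ∈ Sf D s t, ω x = ω' x) → Fu D s t ω ≤ Fu D s t ω' := by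
    intro ω ω' h
    obtain ⟨g, hg, he⟩ := Fu_att hne ω
    rw [he]
    refine le_trans (le_of_eq ?_) (le_Fu ω' hg)
    unfold Exc wt
    congr 1
    refine Finset.sum_congr rfl fun r hr => ?_
    rw [Finset.mem_Ioc] at hr
    rw [h _ (site_mem hg hr.1 hr.2)]
  constructor
  · intro ω ω' h
    exact le_antisymm (key ω ω' h) (key ω' ω fun x hx => (h x hx).symm)
  · obtain ⟨c, hc0, hc⟩ := par_bound D s t
    refine ⟨1 + c, by linarith, fun ω => ?_⟩
    obtain ⟨g, hg, he⟩ := Fu_att hne ω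
    rw [he]
    unfold Exc
    rw [wt_nat]
    have h1 : ((∑ r ∈ Finset.Ioc s t, ω (r, g r) : ℕ) : ℝ) ≤ ∑ x ∈ Sf D s t, (ω x : ℝ) := by
      have := wt_nat_le ω hg
      exact_mod_cast this
    have h2 := hc (g s) (g t) hg.2.2.1 hg.2.2.2.1
    have h3 : (0 : ℝ) ≤ ((∑ r ∈ Finset.Ioc s t, ω (r, g r) : ℕ) : ℝ) := Nat.cast_nonneg _
    have h4 := abs_sub ((∑ r ∈ Finset.Ioc s t, ω (r, g r) : ℕ) : ℝ) (par D.q (s, g s) (t, g t))
    rw [abs_of_nonneg h3] at h4
    generalize ((∑ r ∈ Finset.Ioc s t, ω (r, g r) : ℕ) : ℝ) = W at h1 h3 h4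
    generalize ∑ x ∈ Sf D s t, (ω x : ℝ) = Z at h1
    nlinarith

end

end Pool.Agent.H12.INS.ES
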